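import Pool.Agent.BED.Stmts

/-!
# Row JNU (squad BED, MP_be01ff_an): the Bessel function `J_0` does not vanish at `n x`, `n` odd,
`3 ≤ n ≤ 97`, `x` near the first zero (exact integer arithmetic)
-/

set_option autoImplicit false

namespace Pool.Agent.BED.H62

open Pool.Agent.BED

/-- the integer recursion for the partial sums: `D = b^k (k!)²`, `P = a^k`, and `(-1)^k (U - V) / D` is
the alternating sum of the first `k` terms `(a/b)^i / (i!)²` -/
def stp (a b : ℕ) : ℕ → ℕ × ℕ × ℕ × ℕ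
  | 0 => (1, 1, 0, 0)
  | k + 1 => match stp a b k with
    | (D, P, U, V) => (D * (b * (k + 1) ^ 2), P * a, V * (b * (k + 1) ^ 2), (U + P) * (b * (k + 1) ^ 2))

/-- the verification for `n` -/
def chk (n : ℕ) : Bool :=
  match stp ((n * 4809651) ^ 2) 16000000000000 (3 * n + 41) with
  | (D, P, U, V) => Nat.ble (10000 * P) D &&
    (Nat.ble (D + 5000 * V) (5000 * U) || Nat.ble (D + 5000 * U) (5000 * V))

theorem chk_all : (List.range 48).all (fun i => chk (2 * i + 3)) = true := by decide +kernel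

/-- the terms -/
noncomputable def tm (a b : ℕ) (i : ℕ) : ℝ := ((a : ℝ) / b) ^ i / ((i.factorial : ℝ)) ^ 2

theorem stp_spec (a b : ℕ) (hb : b ≠ 0) (k : ℕ) :
    ((stp a b k).1 : ℝ) = (b : ℝ) ^ k * (k.factorial : ℝ) ^ 2 ∧
    ((stp a b k).2.1 : ℝ) = (a : ℝ) ^ k ∧
    ((stp a b k).2.2.1 : ℝ) - ((stp a b k).2.2.2 : ℝ) =
      (-1) ^ k * ((b : ℝ) ^ k * (k.factorial : ℝ) ^ 2) *
        ∑ i ∈ Finset.range k, (-1) ^ i * tm a b i := by
  induction k with
  | zero => simp [stp]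
  | succ k ih =>
    obtain ⟨h1, h2, h3⟩ := ih
    have hb' : (b : ℝ) ≠ 0 := by exact_mod_cast hb
    have hf : ((k.factorial : ℕ) : ℝ) ≠ 0 := by exact_mod_cast (Nat.factorial_ne_zero k)
    have e0 : ((k + 1).factorial : ℝ) = ((k : ℝ) + 1) * (k.factorial : ℝ) := by
      rw [Nat.factorial_succ]
      push_cast
      ring
    refine ⟨?_, ?_, ?_⟩
    · show (((stp a b k).1 * (b * (k + 1) ^ 2) : ℕ) : ℝ) = _
      push_cast
      rw [h1, e0]
      ring
    · show (((stp a b k).2.1 * a : ℕ) : ℝ) = _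
      push_cast
      rw [h2, pow_succ]
    · show (((stp a b k).2.2.2 * (b * (k + 1) ^ 2) : ℕ) : ℝ) -
        ((((stp a b k).2.2.1 + (stp a b k).2.1) * (b * (k + 1) ^ 2) : ℕ) : ℝ) = _
      push_cast
      rw [Finset.sum_range_succ, e0]
      have e1 : (b : ℝ) ^ k * (k.factorial : ℝ) ^ 2 * tm a b k = (a : ℝ) ^ k := by
        unfold tm
        rw [div_pow]
        field_simp
      have e2 : ((-1 : ℝ) ^ k) * ((-1) ^ k) = 1 := by
        rw [← pow_add, ← two_mul, pow_mul]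
        norm_num
      calc ((stp a b k).2.2.2 : ℝ) * ((b : ℝ) * ((k : ℝ) + 1) ^ 2) -
            (((stp a b k).2.2.1 : ℝ) + ((stp a b k).2.1 : ℝ)) * ((b : ℝ) * ((k : ℝ) + 1) ^ 2)
          = -((((stp a b k).2.2.1 : ℝ) - ((stp a b k).2.2.2 : ℝ)) + ((stp a b k).2.1 : ℝ)) *
              ((b : ℝ) * ((k : ℝ) + 1) ^ 2) := by ring
        _ = -(((-1) ^ k * ((b : ℝ) ^ k * (k.factorial : ℝ) ^ 2) *
              ∑ i ∈ Finset.range k, (-1) ^ i * tm a b i) +
              (((-1 : ℝ) ^ k) * ((-1) ^ k)) * ((b : ℝ) ^ k * (k.factorial : ℝ) ^ 2 * tm a b k)) *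
              ((b : ℝ) * ((k : ℝ) + 1) ^ 2) := by rw [h3, h2, e1, e2, one_mul]
        _ = _ := by ring

theorem jnu (jta : JtaStmt) (jde : JdeStmt) : JnuStmt := by
  intro n x hodd h3 h97 hx1 hx2 h0
  obtain ⟨m, hm⟩ := hodd
  have hchk : chk n = true := by
    have h := List.all_eq_true.1 chk_all (m - 1) (List.mem_range.2 (by omega))
    have e : 2 * (m - 1) + 3 = n := by omega
    rw [e] at h
    exact h
  have hn0 : (0 : ℝ) ≤ n := Nat.cast_nonneg n
  have hn97 : (n : ℝ) ≤ 97 := by exact_mod_cast h97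
  obtain ⟨y, hy⟩ : ∃ y : ℝ, y = (n : ℝ) * (4809651 / 2000000) := ⟨_, rfl⟩
  have hL := jde.2.2.2.2.2 ((n : ℝ) * x) y
  have hd : |(n : ℝ) * x - y| ≤ 1 / 20000 := by
    have e : (n : ℝ) * x - y = (n : ℝ) * (x - 4809651 / 2000000) := by
      rw [hy]
      ring
    rw [e, abs_mul, abs_of_nonneg hn0]
    have h5 : |x - 4809651 / 2000000| ≤ 1 / 2000000 := by
      rw [abs_le]
      constructor <;> linarith
    calc (n : ℝ) * |x - 4809651 / 2000000| ≤ 97 * (1 / 2000000) :=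
          mul_le_mul hn97 h5 (abs_nonneg _) (by norm_num)
      _ ≤ 1 / 20000 := by norm_num
  rw [h0, zero_sub, abs_neg] at hL
  have hj : |j0 y| ≤ 1 / 20000 := hL.trans hd
  obtain ⟨N, hN⟩ : ∃ N : ℕ, N = 3 * n + 41 := ⟨_, rfl⟩
  obtain ⟨a, ha⟩ : ∃ a : ℕ, a = (n * 4809651) ^ 2 := ⟨_, rfl⟩
  obtain ⟨b, hb⟩ : ∃ b : ℕ, b = 16000000000000 := ⟨_, rfl⟩
  have hab : ((a : ℝ) / b) = y ^ 2 / 4 := by
    rw [ha, hb, hy]
    push_cast
    ring
  have hterm : ∀ i : ℕ, bj i * y ^ (2 * i) = (-1) ^ i * tm a b i := by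
    intro i
    unfold bj tm
    rw [hab, div_pow, pow_mul]
    have : ((i.factorial : ℕ) : ℝ) ≠ 0 := by exact_mod_cast (Nat.factorial_ne_zero i)
    field_simp
  have hyN : y ^ 2 ≤ 4 * ((N : ℝ) + 1) ^ 2 := by
    have h1 : y ≤ 2 * ((N : ℝ) + 1) := by
      rw [hy, hN]
      push_cast
      linarith
    have h2 : 0 ≤ y := by
      rw [hy]
      positivity
    nlinarith
  have hS := jta.2 y N hyN
  obtain ⟨s1, s2, s3⟩ := stp_spec a b (by rw [hb]; norm_num) N
  have hNe : (-1 : ℝ) ^ N = 1 := by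
    apply Even.neg_one_pow
    rw [hN, hm]
    exact ⟨3 * m + 22, by ring⟩
  have hsum : ∑ i ∈ Finset.range N, bj i * y ^ (2 * i) =
      ∑ i ∈ Finset.range N, (-1) ^ i * tm a b i := Finset.sum_congr rfl fun i _ => hterm i
  rw [hsum] at hS
  have htail : |bj N| * y ^ (2 * N) = tm a b N := by
    have h1 := hterm N
    rw [hNe, one_mul] at h1
    have h2 : (0 : ℝ) ≤ bj N := by
      unfold bj
      rw [hNe]
      positivity
    rw [abs_of_nonneg h2, h1]
  rw [htail] at hS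
  unfold chk at hchk
  rw [← ha, ← hb, ← hN] at hchk
  rcases hst : stp a b N with ⟨D, P, U, V⟩
  rw [hst] at hchk s1 s2 s3
  simp only [Bool.and_eq_true, Bool.or_eq_true, Nat.ble_eq] at hchk
  obtain ⟨c1, c2⟩ := hchk
  have hD : (0 : ℝ) < (b : ℝ) ^ N * (N.factorial : ℝ) ^ 2 := by
    have h1 : (0 : ℝ) < b := by
      rw [hb]
      norm_num
    have h2 : (0 : ℝ) < (N.factorial : ℝ) := by exact_mod_cast Nat.factorial_pos N
    positivity
  simp only at s1 s2 s3
  rw [hNe, one_mul, ← s1] at s3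
  rw [← s1] at hD
  have ht : tm a b N = (P : ℝ) / D := by
    rw [s1, s2]
    unfold tm
    rw [div_pow]
    have h1 : (b : ℝ) ≠ 0 := by
      rw [hb]
      norm_num
    have h2 : (N.factorial : ℝ) ≠ 0 := by exact_mod_cast (Nat.factorial_ne_zero N)
    field_simp
  have c1' : (10000 : ℝ) * P ≤ D := by exact_mod_cast c1
  have ht' : tm a b N ≤ 1 / 10000 := by
    rw [ht, div_le_iff₀ hD]
    linarith
  have hj1 := abs_le.1 hj
  have hS1 := abs_le.1 (hS.trans ht')
  generalize (∑ i ∈ Finset.range N, (-1 : ℝ) ^ i * tm a b i) = S at hS1 s3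
  rcases c2 with c2 | c2
  · have c3 : (D : ℝ) + 5000 * V ≤ 5000 * U := by exact_mod_cast c2
    have c4 : (1 : ℝ) / 5000 ≤ S := by
      by_contra hc
      have hc' : S < 1 / 5000 := not_le.1 hc
      have := mul_lt_mul_of_pos_left hc' hD
      linarith
    linarith [hS1.1, hS1.2, hj1.1, hj1.2]
  · have c3 : (D : ℝ) + 5000 * U ≤ 5000 * V := by exact_mod_cast c2
    have c4 : S ≤ -(1 / 5000) := by
      by_contra hc
      have hc' : -(1 / 5000) < S := not_le.1 hc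
      have := mul_lt_mul_of_pos_left hc' hD
      linarith
    linarith [hS1.1, hS1.2, hj1.1, hj1.2]

end Pool.Agent.BED.H62
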